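import Pool.Agent.H39.EAG.Targets

/-!
# Row BLK: a failing block
-/

set_option autoImplicit false

open Finset Filter Topology Pool.Agent.H39.EAG

namespace Pool.Agent.H1.EAG

theorem chi_congr {V : Type} (G G' : SimpleGraph V) (S : Finset V)
    (h : ∀ u ∈ S, ∀ v ∈ S, G.Adj u v ↔ G'.Adj u v) : chi G S = chi G' S := by
  unfold chi
  congr 1
  ext k
  constructor
  · rintro ⟨c, h1, h2⟩
    exact ⟨c, h1, fun u hu v hv huv => h2 u hu v hv ((h u hu v hv).2 huv)⟩
  · rintro ⟨c, h1, h2⟩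
    exact ⟨c, h1, fun u hu v hv huv => h2 u hu v hv ((h u hu v hv).1 huv)⟩

/-- the sets `N ⊆ Y` with `χ N < χ (Y ∖ N)` are at most half of all subsets -/
theorem card_half {V : Type} [DecidableEq V] (Y : Finset V) (h : Finset V → ℕ) :
    ((Y.powerset.filter fun N => h N < h (Y \ N)).card : ℝ) ≤ 2 ^ Y.card / 2 := by
  set A := Y.powerset.filter fun N => h N < h (Y \ N) with hA
  have hmem : ∀ N, N ∈ A ↔ N ⊆ Y ∧ h N < h (Y \ N) := fun N => by
    rw [hA, mem_filter, mem_powerset]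
  have hinj : Set.InjOn (fun N => Y \ N) (A : Set (Finset V)) := by
    intro N hN M hM hNM
    have h1 := ((hmem N).1 hN).1
    have h2 := ((hmem M).1 hM).1
    have h3 : Y \ (Y \ N) = Y \ (Y \ M) := congrArg (fun Z => Y \ Z) hNM
    rwa [Finset.sdiff_sdiff_eq_self h1, Finset.sdiff_sdiff_eq_self h2] at h3
  have hdis : Disjoint A (A.image fun N => Y \ N) := by
    rw [Finset.disjoint_left]
    intro N hN hN'
    obtain ⟨M, hM, rfl⟩ := mem_image.1 hN'
    have h1 := (hmem M).1 hM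
    have h2 := ((hmem _).1 hN).2
    rw [Finset.sdiff_sdiff_eq_self h1.1] at h2
    exact absurd h2 (not_lt.2 h1.2.le)
  have hsub : A ∪ (A.image fun N => Y \ N) ⊆ Y.powerset := by
    intro N hN
    rw [mem_union] at hN
    rcases hN with hN | hN
    · exact mem_powerset.2 ((hmem N).1 hN).1
    · obtain ⟨M, hM, rfl⟩ := mem_image.1 hN
      exact mem_powerset.2 sdiff_subset
  have hcard := card_le_card hsub
  rw [card_union_of_disjoint hdis, card_image_of_injOn hinj, card_powerset] at hcard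
  have h1 : (A.card : ℝ) + A.card ≤ 2 ^ Y.card := by exact_mod_cast hcard
  linarith

theorem pf_BLK (hF : T_FIB) (hA : T_CHA) : T_BLK := by
  classical
  intro n r X hX
  set Y : Finset (Fin n) := univ \ X with hY
  have hYm : ∀ v, v ∈ Y ↔ v ∉ X := fun v => by simp [hY]
  set P : Finset (Sym2 (Fin n)) := X.offDiag.image (Function.uncurry Sym2.mk) with hP
  set Q : Finset (Sym2 (Fin n)) := (X ×ˢ Y).image fun p => s(p.1, p.2) with hQ
  have hPm : ∀ e, e ∈ P ↔ ∃ a ∈ X, ∃ b ∈ X, a ≠ b ∧ e = s(a, b) := by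
    intro e
    rw [hP, mem_image]
    constructor
    · rintro ⟨⟨a, b⟩, h, rfl⟩
      rw [mem_offDiag] at h
      exact ⟨a, h.1, b, h.2.1, h.2.2, rfl⟩
    · rintro ⟨a, ha, b, hb, hab, rfl⟩
      exact ⟨(a, b), mem_offDiag.2 ⟨ha, hb, hab⟩, rfl⟩
  have hQm : ∀ e, e ∈ Q ↔ ∃ i ∈ X, ∃ v, v ∉ X ∧ e = s(i, v) := by
    intro e
    rw [hQ, mem_image]
    constructor
    · rintro ⟨⟨a, b⟩, h, rfl⟩
      rw [mem_product, hYm] at h
      exact ⟨a, h.1, b, h.2, rfl⟩
    · rintro ⟨a, ha, b, hb, rfl⟩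
      exact ⟨(a, b), mem_product.2 ⟨ha, (hYm b).2 hb⟩, rfl⟩
  have hPc : P.card = r.choose 2 := by
    rw [hP, Sym2.card_image_offDiag, hX]
  have hQc : Q.card = r * Y.card := by
    rw [hQ, card_image_of_injOn, card_product, hX]
    rintro ⟨a, b⟩ h ⟨a', b'⟩ h' he
    rw [mem_coe, mem_product, hYm] at h h'
    have he' : s(a, b) = s(a', b') := he
    rw [Sym2.eq_iff] at he'
    rcases he' with ⟨h1, h2⟩ | ⟨h1, h2⟩
    · rw [h1, h2]
    · exact absurd h.1 (by
        change a ∉ X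
        rw [h1]
        exact h'.2)
  have hdis : Disjoint P Q := by
    rw [Finset.disjoint_left]
    intro e h1 h2
    obtain ⟨a, ha, b, hb, hab, rfl⟩ := (hPm e).1 h1
    obtain ⟨i, hi, v, hv, he⟩ := (hQm _).1 h2
    rw [Sym2.eq_iff] at he
    rcases he with ⟨h3, h4⟩ | ⟨h3, h4⟩
    · exact hv (h4 ▸ hb)
    · exact hv (h3 ▸ ha)
  have hFc : (P ∪ Q).card = r.choose 2 + r * Y.card := by
    rw [card_union_of_disjoint hdis, hPc, hQc]
  have hYY : ∀ u ∈ Y, ∀ v ∈ Y, s(u, v) ∉ P ∪ Q := by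
    intro u hu v hv h
    rw [hYm] at hu hv
    rw [mem_union] at h
    rcases h with h | h
    · obtain ⟨a, ha, b, hb, hab, he⟩ := (hPm _).1 h
      rw [Sym2.eq_iff] at he
      rcases he with ⟨h3, h4⟩ | ⟨h3, h4⟩
      · exact hu (h3 ▸ ha)
      · exact hu (h3 ▸ hb)
    · obtain ⟨i, hi, w, hw, he⟩ := (hQm _).1 h
      rw [Sym2.eq_iff] at he
      rcases he with ⟨h3, h4⟩ | ⟨h3, h4⟩
      · exact hu (h3 ▸ hi)
      · exact hv (h4 ▸ hi)
  refine hF (Sym2 (Fin n)) (P ∪ Q) _ _ fun ω => ?_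
  -- the family of the small halves
  set A := Y.powerset.filter fun N => chi (gr ω) N < chi (gr ω) (Y \ N) with hAdef
  have hAc : (A.card : ℝ) ≤ 2 ^ Y.card / 2 := card_half Y (fun N => chi (gr ω) N)
  have hcount : (univ.filter fun f : Sym2 (Fin n) → Bool => (∀ i, i ∉ P ∪ Q → f i = ω i) ∧
      Ind (gr f) X ∧ ∀ i ∈ X, Fl (gr f) X i).card ≤ (X.pi fun _ => A).card := by
    refine card_le_card_of_injOn (fun f i _ => Y.filter fun v => f s(i, v) = true) ?_ ?_
    · intro f hf
      rw [mem_coe, mem_filter] at hf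
      obtain ⟨-, hfib, hind, hfl⟩ := hf
      rw [mem_coe, Finset.mem_pi]
      intro i hi
      have hadj : ∀ u ∈ Y, ∀ v ∈ Y, ((gr f).Adj u v ↔ (gr ω).Adj u v) := by
        intro u hu v hv
        change (u ≠ v ∧ f s(u, v) = true) ↔ (u ≠ v ∧ ω s(u, v) = true)
        rw [hfib _ (hYY u hu v hv)]
      have h1 : nbr (gr f) i \ X = Y.filter fun v => f s(i, v) = true := by
        ext v
        rw [Finset.mem_sdiff, mem_filter, hYm]
        unfold nbr
        rw [mem_filter]
        constructor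
        · rintro ⟨⟨-, h2⟩, h3⟩
          exact ⟨h3, h2.2⟩
        · rintro ⟨h2, h3⟩
          exact ⟨⟨mem_univ _, fun h => h2 (h ▸ hi), h3⟩, h2⟩
      have h2 : univ \ (X ∪ nbr (gr f) i) = Y \ (Y.filter fun v => f s(i, v) = true) := by
        rw [← h1]
        ext v
        simp only [Finset.mem_sdiff, mem_univ, mem_union, true_and, hYm]
        tauto
      have h3 := hfl i hi
      unfold Fl at h3
      rw [h1, h2] at h3
      rw [hAdef, mem_filter, mem_powerset]
      refine ⟨filter_subset _ _, ?_⟩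
      rw [chi_congr (gr f) (gr ω) _ fun u hu v hv =>
          hadj u (filter_subset _ _ hu) v (filter_subset _ _ hv),
        chi_congr (gr f) (gr ω) _ fun u hu v hv =>
          hadj u (sdiff_subset hu) v (sdiff_subset hv)] at h3
      exact h3
    · intro f hf g hg hfg
      rw [mem_coe, mem_filter] at hf hg
      obtain ⟨-, hfib, hind, -⟩ := hf
      obtain ⟨-, hgib, hgnd, -⟩ := hg
      funext e
      by_cases he : e ∈ P ∪ Q
      · rw [mem_union] at he
        rcases he with he | he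
        · obtain ⟨a, ha, b, hb, hab, rfl⟩ := (hPm e).1 he
          have h1 : f s(a, b) ≠ true := fun h => hind a ha b hb ⟨hab, h⟩
          have h2 : g s(a, b) ≠ true := fun h => hgnd a ha b hb ⟨hab, h⟩
          rw [Bool.eq_false_iff.2 h1, Bool.eq_false_iff.2 h2]
        · obtain ⟨i, hi, v, hv, rfl⟩ := (hQm e).1 he
          have h1 : (Y.filter fun v => f s(i, v) = true) = Y.filter fun v => g s(i, v) = true :=
            congrFun (congrFun hfg i) hi
          have h2 := Finset.ext_iff.1 h1 v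
          rw [mem_filter, mem_filter] at h2
          have h3 : f s(i, v) = true ↔ g s(i, v) = true :=
            ⟨fun h => (h2.1 ⟨(hYm v).2 hv, h⟩).2, fun h => (h2.2 ⟨(hYm v).2 hv, h⟩).2⟩
          exact Bool.eq_iff_iff.2 h3
      · rw [hfib e he, hgib e he]
  have hcount' : cnt (fun f : Sym2 (Fin n) → Bool => (∀ i, i ∉ P ∪ Q → f i = ω i) ∧
      Ind (gr f) X ∧ ∀ i ∈ X, Fl (gr f) X i) ≤ (2 ^ Y.card / 2 : ℝ) ^ r := by
    unfold cnt
    have h1 : ((X.pi fun _ => A).card : ℝ) = (A.card : ℝ) ^ r := by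
      rw [card_pi, prod_const, hX]
      push_cast
      rfl
    calc _ ≤ ((X.pi fun _ => A).card : ℝ) := by
          refine Nat.cast_le.2 (le_trans (le_of_eq ?_) hcount)
          congr
      _ = (A.card : ℝ) ^ r := h1
      _ ≤ _ := pow_le_pow_left₀ (Nat.cast_nonneg _) hAc r
  refine hcount'.trans (le_of_eq ?_)
  rw [hFc, pow_add, div_pow, ← pow_mul, mul_comm Y.card r, one_div, inv_pow, inv_pow]
  field_simp

end Pool.Agent.H1.EAG
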